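import Pool.Agent.Helper1.UQ.St1

/-!
Project UQ (MP_e3e162_pr), module CON: edges of probability one can be contracted.
-/

set_option autoImplicit false

open Finset

namespace Pool.Agent.Helper21.UQ

open Classical Pool.Agent.Helper30.RCU Pool.Agent.Helper1.UQ

universe u

variable {V V' ι : Type u}

theorem conn_empty (ψ : ι → Sym2 V) (a b : V) :
    Conn ψ ((∅ : Finset ι) : Set ι) a b ↔ a = b := by
  constructor
  · intro h
    have h1 : gr ψ ((∅ : Finset ι) : Set ι) = ⊥ := by
      unfold gr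
      simp
    unfold Conn at h
    rw [h1] at h
    simpa using h
  · rintro rfl
    exact Conn.refl _ _

theorem conn_cm (φ : ι → Sym2 V) (σ : V → V') (W : Finset ι)
    (hσ : ∀ u v : V, σ u = σ v ↔ Conn φ (W : Set ι) u v) (ω : Finset ι) (a b : V) :
    Conn φ ((ω ∪ W : Finset ι) : Set ι) a b ↔ Conn (cm φ σ) (ω : Set ι) (σ a) (σ b) := by
  induction ω using Finset.induction_on generalizing a b with
  | empty =>
    rw [conn_empty, Finset.empty_union]
    exact (hσ a b).symm
  | insert e ω _ ih =>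
    obtain ⟨c, d, he⟩ := exists_mk (φ := φ) e
    have he' : cm φ σ e = s(σ c, σ d) := by
      unfold cm
      rw [he]
      rfl
    rw [Finset.insert_union, Finset.coe_insert, Finset.coe_insert, conn_insert he,
      conn_insert he', ih, ih, ih, ih, ih]

theorem rk_cm (φ : ι → Sym2 V) (σ : V → V') (W : Finset ι)
    (hσ : ∀ u v : V, σ u = σ v ↔ Conn φ (W : Set ι) u v) (ω : Finset ι) :
    rk φ (ω ∪ W) = rk (cm φ σ) ω + rk φ W := by
  induction ω using Finset.induction_on with
  | empty => rw [Finset.empty_union, rk_empty, zero_add]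
  | insert e ω _ ih =>
    obtain ⟨c, d, he⟩ := exists_mk (φ := φ) e
    have he' : cm φ σ e = s(σ c, σ d) := by
      unfold cm
      rw [he]
      rfl
    have hc := conn_cm φ σ W hσ ω c d
    rw [Finset.insert_union]
    by_cases h : Conn φ ((ω ∪ W : Finset ι) : Set ι) c d
    · rw [rk_insert_of_conn he h, rk_insert_of_conn he' (hc.1 h), ih]
    · rw [rk_insert_of_not_conn he h, rk_insert_of_not_conn he' (fun h' => h (hc.2 h')), ih]
      ring

theorem wt_cm (φ : ι → Sym2 V) (σ : V → V') (p : ι → ℝ) (q : ℝ) (E W : Finset ι)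
    (hEW : Disjoint E W) (hp : ∀ e ∈ W, p e = 1)
    (hσ : ∀ u v : V, σ u = σ v ↔ Conn φ (W : Set ι) u v) (ω : Finset ι) (hω : ω ⊆ E) :
    wt φ p q (E ∪ W) (ω ∪ W) = q⁻¹ ^ rk φ W * wt (cm φ σ) p q E ω := by
  have hd : Disjoint ω W := Finset.disjoint_of_subset_left hω hEW
  have h1 : (E ∪ W) \ (ω ∪ W) = E \ ω := by
    ext x
    simp only [mem_sdiff, mem_union]
    constructor
    · rintro ⟨h1 | h1, h2⟩
      · exact ⟨h1, fun h => h2 (Or.inl h)⟩
      · exact absurd (Or.inr h1) h2
    · rintro ⟨h1, h2⟩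
      refine ⟨Or.inl h1, ?_⟩
      rintro (h | h)
      · exact h2 h
      · exact Finset.disjoint_left.1 hEW h1 h
  unfold wt
  rw [h1, Finset.prod_union hd, Finset.prod_eq_one hp, rk_cm φ σ W hσ ω, pow_add]
  ring

theorem S_cm (φ : ι → Sym2 V) (σ : V → V') (p : ι → ℝ) (q : ℝ) (E W : Finset ι)
    (hEW : Disjoint E W) (hp : ∀ e ∈ W, p e = 1)
    (hσ : ∀ u v : V, σ u = σ v ↔ Conn φ (W : Set ι) u v) (f : Finset ι → ℝ) :
    S φ p q (E ∪ W) f = q⁻¹ ^ rk φ W * S (cm φ σ) p q E (fun ω => f (ω ∪ W)) := by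
  unfold S
  rw [Finset.mul_sum]
  have hinj : Set.InjOn (fun ω : Finset ι => ω ∪ W) (E.powerset : Set (Finset ι)) := by
    intro a ha b hb hab
    have ha' : a ⊆ E := mem_powerset.1 (by exact_mod_cast ha)
    have hb' : b ⊆ E := mem_powerset.1 (by exact_mod_cast hb)
    have hab' : a ∪ W = b ∪ W := hab
    ext x
    have hx := Finset.ext_iff.1 hab' x
    simp only [mem_union] at hx
    constructor
    · intro h
      rcases hx.1 (Or.inl h) with h' | h'
      · exact h'
      · exact absurd h' (Finset.disjoint_left.1 hEW (ha' h))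
    · intro h
      rcases hx.2 (Or.inl h) with h' | h'
      · exact h'
      · exact absurd h' (Finset.disjoint_left.1 hEW (hb' h))
  have h1 : ∑ ω ∈ E.powerset, q⁻¹ ^ rk φ W * (wt (cm φ σ) p q E ω * f (ω ∪ W)) =
      ∑ ω ∈ E.powerset.image (fun ω : Finset ι => ω ∪ W), wt φ p q (E ∪ W) ω * f ω := by
    rw [Finset.sum_image hinj]
    refine Finset.sum_congr rfl fun ω hω => ?_
    rw [wt_cm φ σ p q E W hEW hp hσ ω (mem_powerset.1 hω)]
    ring
  rw [h1]
  symm
  refine Finset.sum_subset ?_ ?_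
  · intro ω hω
    obtain ⟨η, hη, rfl⟩ := Finset.mem_image.1 hω
    exact mem_powerset.2 (Finset.union_subset_union_left (mem_powerset.1 hη))
  · intro ω hω hn
    have hω' := mem_powerset.1 hω
    have hW : ¬ W ⊆ ω := by
      intro hW
      apply hn
      refine Finset.mem_image.2 ⟨ω \ W, ?_, ?_⟩
      · refine mem_powerset.2 fun x hx => ?_
        obtain ⟨hx1, hx2⟩ := mem_sdiff.1 hx
        rcases mem_union.1 (hω' hx1) with h | h
        · exact h
        · exact absurd h hx2
      · exact Finset.sdiff_union_of_subset hW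
    obtain ⟨e, heW, heω⟩ := Finset.not_subset.1 hW
    have h0 : ∏ e ∈ (E ∪ W) \ ω, (1 - p e) = 0 := by
      refine Finset.prod_eq_zero (i := e) (mem_sdiff.2 ⟨mem_union_right _ heW, heω⟩) ?_
      rw [hp e heW, sub_self]
    unfold wt
    rw [h0]
    ring

theorem hCON : StCON.{u} := by
  intro V V' ι φ σ p q _ _ hq E W hEW hp hσ
  refine ⟨fun f => ?_, fun ω a b => conn_cm φ σ W hσ ω a b⟩
  have h1 := S_cm φ σ p q E W hEW hp hσ f
  have h2 := S_cm φ σ p q E W hEW hp hσ (fun _ => 1)
  have hq0 : q⁻¹ ^ rk φ W ≠ 0 := by positivity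
  unfold ex
  rw [h1, h2, mul_div_mul_left _ _ hq0]

end Pool.Agent.Helper21.UQ
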